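import Pool.Agent.W172.MK.Stm

/-!
Project MK: independence at distance two and support.
-/

set_option autoImplicit false

open MeasureTheory ProbabilityTheory Filter Topology

namespace Pool.Agent.W922.MK

open Pool.Agent.W172.MK

theorem ind2 : P_XM → P_INDEP → P_BR → P_IND2 := by
  intro hXM hInd hBR S mS μ hμ p F hK hR
  obtain ⟨hmeas, -⟩ := hXM S mS F hR.meas
  have h0 : ∀ ω : Om S, XX F 0 ω = (ω 0).1 := by
    intro ω; unfold XX; norm_num
  have h2 : ∀ ω : Om S, XX F 2 ω = (ω 1).1 := by
    intro ω; unfold XX; norm_num
  have h1 : ∀ ω : Om S, XX F 1 ω = F ((ω 0).1, (ω 1).1) (ω 1).2 := by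
    intro ω; unfold XX; norm_num
  constructor
  · have h := iIndepFun_infinitePi (P := fun _ : ℤ => μ.prod (volume : Measure unitInterval))
      (X := fun (_ : ℤ) (w : S × unitInterval) => w.1) (fun _ => measurable_fst)
    have h3 := h.indepFun (i := 0) (j := 1) (by norm_num)
    have e0 : XX F 0 = fun ω : Om S => (ω 0).1 := funext h0
    have e2 : XX F 2 = fun ω : Om S => (ω 1).1 := funext h2
    rw [e0, e2]
    exact h3
  · intro B hB hpB
    obtain ⟨φ, hφ⟩ : ∃ φ : S → S × unitInterval → ℝ,
      φ = fun y w => Set.indicator B (fun _ => (1 : ℝ)) (y, F (y, w.1) w.2) := ⟨_, rfl⟩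
    have hφm : Measurable (Function.uncurry φ) := by
      rw [hφ]
      have hm1 : Measurable (fun q : S × (S × unitInterval) => (q.1, F (q.1, q.2.1) q.2.2)) := by
        apply Measurable.prodMk measurable_fst
        have := hR.meas
        exact this.comp (f := fun q : S × (S × unitInterval) => ((q.1, q.2.1), q.2.2))
          (by fun_prop)
      exact (measurable_const.indicator hB).comp hm1
    have hφb : ∀ y w, |φ y w| ≤ 1 := by
      intro y w
      rw [hφ]
      simp only [Set.indicator]
      split_ifs <;> simp
    have hφ0 : ∀ y w, 0 ≤ φ y w := by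
      intro y w
      rw [hφ]
      exact Set.indicator_nonneg (fun _ _ => zero_le_one) _
    -- the inner integral
    have hinner : ∀ x, ∫ w, φ x w ∂(μ.prod (volume : Measure unitInterval)) = 0 := by
      intro x
      have h3 := hBR S mS μ hμ p F hK hR x (fun _ z => Set.indicator B (fun _ => (1 : ℝ)) (x, z))
        (by
          have : Measurable (fun q : S × S => (x, q.2)) := by fun_prop
          exact (measurable_const.indicator hB).comp this)
        ⟨1, fun y z => by
          simp only [Set.indicator]
          split_ifs <;> simp⟩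
      rw [hφ]
      rw [h3]
      have h4 : ∀ z, p x z * (∫ y, p z y * Set.indicator B (fun _ => (1 : ℝ)) (x, z) ∂μ) = 0 := by
        intro z
        by_cases hz : (x, z) ∈ B
        · rw [hpB x z hz, zero_mul]
        · simp [Set.indicator_of_notMem hz]
      simp only [h4]
      simp
    have hint := hInd S mS μ hμ 0 Set.univ MeasurableSet.univ φ hφm ⟨1, hφb⟩
    simp only [Measure.restrict_univ, zero_add, hinner, integral_zero] at hint
    have hφω : Measurable (fun ω : Om S => φ (ω 0).1 (ω 1)) := by
      exact hφm.comp (f := fun ω : Om S => ((ω 0).1, ω 1)) (by fun_prop)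
    have hin : Integrable (fun ω : Om S => φ (ω 0).1 (ω 1)) (PM μ) := by
      apply Integrable.of_bound hφω.aestronglyMeasurable 1
      filter_upwards with ω
      rw [Real.norm_eq_abs]
      exact hφb _ _
    rw [integral_eq_zero_iff_of_nonneg (fun ω => hφ0 _ _) hin] at hint
    filter_upwards [hint] with ω hω hmem
    rw [h0, h1] at hmem
    rw [hφ] at hω
    simp only [Pi.zero_apply] at hω
    rw [Set.indicator_of_mem hmem] at hω
    exact one_ne_zero hω

end Pool.Agent.W922.MK
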